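import Pool.Agent.N204.HR.Stm3
import Pool.Agent.N966.HR.TF
import Pool.Agent.N211.BT.Act

/-!
Project HR (helper204), second part: traces and push-forwards under a Frobenius system (task F1,
helper134).
-/

set_option linter.unusedSectionVars false

open CategoryTheory AlgebraicGeometry TensorProduct

universe u

namespace Pool.Agent.N134.HR

open Module
open Pool.Agent.H914 Pool.Agent.H914.VarClass Pool.Agent.H914.VarClass.Obj
  Pool.Agent.H914.WeilCohomology
open Pool.Agent.Y133.Half
open Pool.Agent.N996.BP (IsCoordinateMap)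
open Pool.Agent.N966.HR (pw_induction)
open Pool.Agent.N204.HR (FrobK S_F1)

theorem f1 : S_F1.{u} := by
  intro k _ 𝒱 ops W X q Φ hΦ
  have hq : (q : W.K) ≠ 0 := Nat.cast_ne_zero.2 (by have := hΦ.q_pos; omega)
  have hxp : ∀ n (a : W.H (pw X n)) (b : W.H X), Φ (n + 1) (xp W a b) = xp W (Φ n a) (Φ 0 b) := by
    intro n a b
    have h1 : Φ (n + 1) (W.map (pfst X n) a) = W.map (pfst X n) (Φ n a) :=
      hΦ.map n (n + 1) (pfst X n) (Pool.Agent.N211.BT.isCoord_fst n) a
    have h2 : Φ (n + 1) (W.map (psnd X n) b) = W.map (psnd X n) (Φ 0 b) :=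
      hΦ.map 0 (n + 1) (psnd X n) (Pool.Agent.N211.BT.isCoord_snd n) b
    have h3 := hΦ.mul (n + 1) (W.map (pfst X n) a) (W.map (psnd X n) b)
    rw [h1, h2] at h3
    exact h3
  have h1 : ∀ n x, W.tr (pw X n) (Φ n x) = (q : W.K) ^ (pw X n).dim * W.tr (pw X n) x := by
    intro n
    induction n with
    | zero => exact hΦ.tr
    | succ n ih =>
      intro x
      refine pw_induction (p := fun x => W.tr (pw X (n + 1)) (Φ (n + 1) x) =
        (q : W.K) ^ (pw X (n + 1)).dim * W.tr (pw X (n + 1)) x) ?_ ?_ x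
      · intro a b ha hb
        rw [hΦ.add, map_add, ha, hb, map_add, mul_add]
      · intro a b
        have e1 : W.tr (pw X (n + 1)) (xp W (Φ n a) (Φ 0 b)) =
          W.tr (pw X n) (Φ n a) * W.tr X (Φ 0 b) := tr_xp _ _
        have e2 : W.tr (pw X (n + 1)) (xp W a b) = W.tr (pw X n) a * W.tr X b := tr_xp _ _
        have e3 : (pw X (n + 1)).dim = (pw X n).dim + X.dim := rfl
        have e4 : W.tr X (Φ 0 b) = (q : W.K) ^ X.dim * W.tr X b := hΦ.tr b
        calc W.tr (pw X (n + 1)) (Φ (n + 1) (xp W a b)) =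
              W.tr (pw X (n + 1)) (xp W (Φ n a) (Φ 0 b)) := congrArg _ (hxp n a b)
          _ = W.tr (pw X n) (Φ n a) * W.tr X (Φ 0 b) := e1
          _ = ((q : W.K) ^ (pw X n).dim * W.tr (pw X n) a) *
              ((q : W.K) ^ X.dim * W.tr X b) := congrArg₂ _ (ih a) e4
          _ = (q : W.K) ^ (pw X (n + 1)).dim * (W.tr (pw X n) a * W.tr X b) := by
              rw [e3, pow_add]
              ring
          _ = _ := congrArg _ e2.symm
  have hbij : ∀ n, Function.Bijective (Φ n) := by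
    intro n
    let L : W.H (pw X n) →ₗ[W.K] W.H (pw X n) := ⟨⟨Φ n, hΦ.add n⟩, hΦ.smul n⟩
    have hinj : Function.Injective L := by
      rw [injective_iff_map_eq_zero]
      intro x hx
      refine W.nondeg x fun b => ?_
      have h2 := h1 n (x * b)
      rw [hΦ.mul, show Φ n x = 0 from hx, zero_mul, map_zero] at h2
      exact (mul_eq_zero.1 h2.symm).resolve_left (pow_ne_zero _ hq)
    exact ⟨hinj, LinearMap.surjective_of_injective hinj⟩
  refine ⟨h1, hbij, ?_⟩
  intro n m f hf x y hxy z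
  obtain ⟨z', rfl⟩ := (hbij n).2 z
  rw [← hΦ.mul n z' y, h1 n (z' * y), hxy z', ← hΦ.map n m f hf z', ← hΦ.mul m (W.map f z') x,
    h1 m]
  ring

end Pool.Agent.N134.HR
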